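import Pool.Agent.J6H30.PV.GFinal

/-!
# Sub-Gaussian tails for the digits of the values of polynomials with algebraic irrational coefficients

Let `F` be a real form of degree `D` such that, for some set `T` of variables, the coefficients of the
monomials with support `T` are algebraic and not all rational; let `g` be any real polynomial of degree
less than `D` and `R` any polynomial with integral coefficients. For a random point `k` of a box in
`ℤ ^ r` with sides at least `exp(ε N)` the digits of `z = F(k) + g(k) + R(k) / Q` up to the `N`-th place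
behave in every window and in every base at most `B` like independent random digits also with respect to
large deviations: the probability that for some base `b ≤ B` some window `s < i ≤ s + n` with `s, n ≤ N`
has discrepancy larger than `λ (log N) ^ 3 √n` is at most `exp(-λ ^ 2)`, uniformly for all `λ ≥ 1`. For
`λ = η √N / (log N) ^ 3` this shows that up to an exponentially small proportion `exp(-N ^ (1 - o(1)))`
of the points `k` all frequencies of words are correct up to `η`; for `λ = √(C log N)` that the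
discrepancy is at most `(log N) ^ 4 √n` for all but `|Ω| / N ^ C` of the points. All this holds for all
polynomials with algebraic non-constant coefficients which are not all rational, for instance for the
multiples `m x`, `m ≤ exp(ε N)`, of any real algebraic irrational number `x`, and it holds in all
cylinder intersections of density at least `exp(-κ N)` and for arbitrary additional functions which do
not depend on all the variables in `T`; for instance for `x a b + γ(a) + γ'(b)`, `a ∈ 𝒜`, `b ∈ ℬ`, with
arbitrary sets `𝒜`, `ℬ` of density at least `exp(-κ N)` in intervals of length `exp(ε N)`.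

Proof. The exponential sums over `Ω` with the phases `z(k) h b ^ p` are bounded by `exp(-κ N) |Ω|` for all
`h ≤ exp(κ N)`: by box norms, Weyl's inequality and the subspace theorem (for frequencies `q x h b ^ p`
with an algebraic irrational number `x` and integers `q ≤ exp(κ N)`). Therefore the blocks of `c N`
consecutive digits take each value with probability at most twice the expected one, and the large
deviations of sums of independent digits (here digits in base `b ^ w ∈ [N, b N]`) can be transferred
with the loss of a factor 2 for the probability. Finally windows are divided into residue classes modulo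
`w` and into a bounded number of blocks.
-/

set_option autoImplicit false

namespace Pool.Agent.Results.MP_5b6025_nt.GaussianTails

open Finset

/-- For all bases `2 ≤ b ≤ B`, all places `s ≤ N`, all `n ≤ N` and all intervals
`[α, β) ⊆ [0, 1)`: the number of `1 ≤ i ≤ n` such that the fractional part of `z b ^ (s + i)` lies in
`[α, β)` differs from `(β - α) n` by at most `E √n`. -/
def SmallDiscrepancy (B N : ℕ) (E z : ℝ) : Prop :=
  ∀ b : ℕ, 2 ≤ b → b ≤ B → ∀ s : ℕ, s ≤ N → ∀ n : ℕ, n ≤ N → ∀ α β : ℝ, 0 ≤ α → α < β → β ≤ 1 →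
    |(({i : ℕ | 1 ≤ i ∧ i ≤ n ∧ α ≤ Int.fract (z * (b : ℝ) ^ (s + i)) ∧
      Int.fract (z * (b : ℝ) ^ (s + i)) < β}.ncard : ℕ) : ℝ) - (β - α) * n| ≤ E * Real.sqrt n

/-- the intersection of the sets `Z i`, `i ∈ T`, in the box `∏ [J i, J i + M i)` -/
def Cylinder {r : ℕ} (J : Fin r → ℤ) (M : Fin r → ℕ) (T : Finset (Fin r))
    (Z : Fin r → Set (Fin r → ℤ)) : Set (Fin r → ℤ) :=
  {k | (∀ i, J i ≤ k i ∧ k i < J i + M i) ∧ ∀ i ∈ T, k ∈ Z i}

/-- Let `F` be a real form of degree `D ≥ 1` in `r` variables and `T` a set of variables such that the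
coefficients of the monomials of `F` with support `T` (those divisible by exactly the variables in `T`)
are algebraic and not all rational; let `Q ≥ 1`, `B` and `ε > 0` be given. There is `κ > 0` such that for
all large `N`, all real polynomials `g` of total degree less than `D`, all polynomials `R` (of any degree)
with integral coefficients, all boxes `∏ [J i, J i + M i)` with `M i ≥ exp(ε N)` for `i ∈ T`, all sets
`Z i ⊆ ℤ ^ r`, `i ∈ T`, not depending on the `i`-th coordinate and all real functions `γ i` on `ℤ ^ r`,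
`i ∈ T`, not depending on the `i`-th coordinate: if the intersection `Ω` of the box with the sets `Z i`
contains at least `exp(-κ N) ∏ M i` points (for instance if all the `Z i` are `ℤ ^ r`), then, for every
`λ ≥ 1`, for all but at most `exp(-λ ^ 2) |Ω|` of the points `k` of `Ω` the number
`z = F(k) + g(k) + R(k) / Q + ∑_{i ∈ T} γ i k` satisfies `SmallDiscrepancy B N (λ (log N) ^ 3)`. -/
theorem result (r D : ℕ) (hD : 1 ≤ D) (F : MvPolynomial (Fin r) ℝ) (hF : F.IsHomogeneous D)
    (T : Finset (Fin r)) (halg : ∀ m, m.support = T → IsAlgebraic ℚ (F.coeff m))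
    (hirr : ∃ m, m.support = T ∧ Irrational (F.coeff m))
    (Q : ℕ) (hQ : 1 ≤ Q) (B : ℕ) (ε : ℝ) (hε : 0 < ε) :
    ∃ κ : ℝ, 0 < κ ∧ ∃ N₀ : ℕ, ∀ N : ℕ, N₀ ≤ N →
      ∀ g : MvPolynomial (Fin r) ℝ, g.totalDegree < D → ∀ R : MvPolynomial (Fin r) ℤ,
      ∀ (J : Fin r → ℤ) (M : Fin r → ℕ), (∀ i ∈ T, Real.exp (ε * N) ≤ M i) →
      ∀ Z : Fin r → Set (Fin r → ℤ), (∀ i ∈ T, ∀ k z, Function.update k i z ∈ Z i ↔ k ∈ Z i) →
      ∀ γ : Fin r → (Fin r → ℤ) → ℝ, (∀ i ∈ T, ∀ k z, γ i (Function.update k i z) = γ i k) →
      Real.exp (-(κ * N)) * ∏ i, (M i : ℝ) ≤ (((Cylinder J M T Z).ncard : ℕ) : ℝ) →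
      ∀ lam : ℝ, 1 ≤ lam →
      (({k | k ∈ Cylinder J M T Z ∧ ¬ SmallDiscrepancy B N (lam * (Real.log N) ^ 3)
          (MvPolynomial.eval (fun i => (k i : ℝ)) F + MvPolynomial.eval (fun i => (k i : ℝ)) g +
            ((MvPolynomial.eval k R : ℤ) : ℝ) / Q + ∑ i ∈ T, γ i k)}.ncard : ℕ) : ℝ) ≤
        Real.exp (-(lam ^ 2)) * (((Cylinder J M T Z).ncard : ℕ) : ℝ) := by
  classical
  have hdef : ∀ (N : ℕ) (E z : ℝ), Pool.Agent.J6H30.PV.GoodG B N E z → SmallDiscrepancy B N E z := by
    intro N E z h b hb hbB s hs n hn α β h0 h1 h2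
    have h3 := h b hb hbB s hs n hn α β h0 h1 h2
    have e1 : {i : ℕ | 1 ≤ i ∧ i ≤ n ∧ α ≤ Int.fract (z * (b : ℝ) ^ (s + i)) ∧
        Int.fract (z * (b : ℝ) ^ (s + i)) < β} =
        (((Icc 1 n).filter (fun i : ℕ => α ≤ Int.fract (z * (b : ℝ) ^ (s + i)) ∧
          Int.fract (z * (b : ℝ) ^ (s + i)) < β) : Finset ℕ) : Set ℕ) := by
      ext i
      rw [mem_coe, mem_filter, mem_Icc]
      simp only [Set.mem_setOf_eq, and_assoc]
    rw [e1, Set.ncard_coe_finset]
    exact h3
  obtain ⟨κ, hκ, N₀, h⟩ := Pool.Agent.J6H30.PV.cylG r D hD T F hF halg hirr Q hQ B ε hε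
  refine ⟨κ, hκ, N₀, fun N hN g hg R J M hM Z hZ γ hγ hdens lam hlam => ?_⟩
  set Ω : Finset (Fin r → ℤ) :=
    (Pool.Agent.J6H30.PV.box J M).filter (fun k => ∀ i ∈ T, k ∈ Z i) with hΩ
  have hΩe : ∀ k, k ∈ Ω ↔ k ∈ Pool.Agent.J6H30.PV.box J M ∧ ∀ i ∈ T, k ∈ Z i := by
    intro k
    rw [hΩ, mem_filter]
  have hbox : ∀ k, k ∈ Pool.Agent.J6H30.PV.box J M ↔ ∀ i, J i ≤ k i ∧ k i < J i + M i := by
    intro k
    unfold Pool.Agent.J6H30.PV.box
    rw [Fintype.mem_piFinset]
    exact forall_congr' fun i => mem_Ico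
  have hC : Cylinder J M T Z = (Ω : Set (Fin r → ℤ)) := by
    ext k
    rw [mem_coe, hΩe, hbox]
    rfl
  rw [hC, Set.ncard_coe_finset] at hdens ⊢
  have h1 := h N hN g hg R J M hM Z hZ γ hγ Ω hΩe hdens lam hlam
  refine le_trans ?_ h1
  refine Nat.cast_le.2 (Set.ncard_le_ncard ?_ ((finite_toSet Ω).subset fun k hk => hk.1))
  rintro k ⟨hk, hbad⟩
  exact ⟨hk, fun hgood => hbad (hdef _ _ _ hgood)⟩

end Pool.Agent.Results.MP_5b6025_nt.GaussianTails
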