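import Pool.Agent.J6H36.RB.Univ2

/-!
# One set of bases for all algebraic numbers

The question asks for at least one base in which a given algebraic number is normal.  Here finite
depths growing with the base are considered: almost all bases are good for all algebraic numbers at
the same time.  There is an absolute constant `δ > 0` such that

* for every function `κ` tending to infinity there is a set `S` of bases of density one such that
  every real algebraic irrational number, and even every tuple of real algebraic numbers which is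
  linearly independent together with `1` over the rationals, has evenly distributed digits in every
  sufficiently large base `b ∈ S` at all depths between `κ(b)` and `(log b) ^ δ`;
* there is a set `S` of bases with fewer than `X / (log X) ^ A` exceptions up to `X` (for every `A`), in
  particular containing almost all primes, with the same property for the depths between
  `(log b) ^ c` and `(log b) ^ δ`, for every `c > 0`.

Method: Vinogradov's mean value theorem with explicit constants and the double Hoelder bound for the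
bilinear sum (starting library, project VK), used with the leading coefficient only, which is an
integral linear form in the algebraic numbers and is controlled by the generalization of Liouville's
inequality; comparison of distributions on products of intervals (starting library, `Y951.TU`);
concentration for random words; a diagonal argument for countably many sets with few exceptions.
-/

set_option autoImplicit false

namespace Pool.Agent.Results.MP_5b6025_nt.UniversalBases

/-- the `k`-th digit behind the point of `x` in base `b` (`k ≥ 1`) -/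
noncomputable def digit (b k : ℕ) (x : ℝ) : ℕ := ⌊(b : ℝ) * Int.fract ((b : ℝ) ^ (k - 1) * x)⌋₊

/-- In base `b` every `r × m` matrix with entries `0, …, M - 1` stands at the right number of the places
`1 ≤ i ≤ K`, up to `K ^ (1/2 + ε)`: here `D` stands at the place `i` if `⌊M a_{j,i+h} / b⌋ = D_{j,h}` for
all `1 ≤ j ≤ r` and `0 ≤ h < m`, where `a_{j,k}` is the `k`-th digit of `α_j` in base `b`. -/
def Blocks {r : ℕ} (α : Fin r → ℝ) (m M : ℕ) (ε : ℝ) (b K : ℕ) : Prop :=
  ∀ D : Fin r → Fin m → Fin M,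
    |({i : ℕ | 1 ≤ i ∧ i ≤ K ∧ ∀ (j : Fin r) (h : Fin m),
        M * digit b (i + h) (α j) / b = (D j h : ℕ)}.ncard : ℝ) -
        K * (1 / (M : ℝ) ^ (r * m))| ≤ (K : ℝ) ^ (1 / 2 + ε)

/-- The points `(α_1 b ^ k, …, α_r b ^ k)`, `1 ≤ k ≤ K`, modulo one are evenly distributed: every box
`∏ [u_j, v_j)` in the unit cube contains the right number of them, up to `K ^ (1/2 + ε)`. -/
def Boxes {r : ℕ} (α : Fin r → ℝ) (ε : ℝ) (b K : ℕ) : Prop :=
  ∀ u v : Fin r → ℝ, (∀ j, 0 ≤ u j ∧ u j ≤ v j ∧ v j ≤ 1) →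
    |({k : ℕ | 1 ≤ k ∧ k ≤ K ∧ ∀ j, u j ≤ Int.fract (α j * (b : ℝ) ^ k) ∧
        Int.fract (α j * (b : ℝ) ^ k) < v j}.ncard : ℝ) - K * ∏ j, (v j - u j)| ≤
      (K : ℝ) ^ (1 / 2 + ε)

/-- There is an absolute constant `δ > 0` such that the following holds.

(1) Let `κ(b)` tend to infinity.  There is a set `S` of density one such that for all real algebraic
numbers `α_1, …, α_r` for which `1, α_1, …, α_r` are linearly independent over `ℚ` (for `r = 1`: for every
real algebraic irrational number), all `m, M ≥ 1` and all `ε > 0` the following holds for all but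
finitely many `b ∈ S` and all `κ(b) ≤ K ≤ (log b) ^ δ`: every `r × m` matrix of digit classes stands at
the right number of the first `K` places in base `b`, up to `K ^ (1/2 + ε)`, and so do the box counts
of the points `(α_j b ^ k)_j`, `k ≤ K`.

(2) There is a set `S` with at most `X / (log X) ^ A` exceptions up to `X`, for every `A` and all large
`X`, hence containing almost all primes, such that for all `α_1, …, α_r`, `m`, `M`, `ε` as in (1) and all
`c > 0` the same holds for all but finitely many `b ∈ S` and all `(log b) ^ c ≤ K ≤ (log b) ^ δ`. -/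
theorem result : ∃ δ : ℝ, 0 < δ ∧
    (∀ κ : ℕ → ℕ, Filter.Tendsto κ Filter.atTop Filter.atTop →
      ∃ S : Set ℕ,
        (∀ η : ℝ, 0 < η → ∃ X₀ : ℕ, ∀ X : ℕ, X₀ ≤ X → ({n : ℕ | n ≤ X ∧ n ∉ S}.ncard : ℝ) ≤ η * X) ∧
        ∀ (r : ℕ) (α : Fin r → ℝ), (∀ j, IsAlgebraic ℚ (α j)) →
          LinearIndependent ℚ (Matrix.vecCons (1 : ℝ) α) → ∀ m M : ℕ, 1 ≤ m → 1 ≤ M →
          ∀ ε : ℝ, 0 < ε → ∃ b₀ : ℕ, ∀ b ∈ S, b₀ ≤ b → ∀ K : ℕ, κ b ≤ K →
            (K : ℝ) ≤ (Real.log b) ^ δ → Blocks α m M ε b K ∧ Boxes α ε b K) ∧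
    (∃ S : Set ℕ,
        (∀ A : ℕ, ∃ X₀ : ℕ, ∀ X : ℕ, X₀ ≤ X →
          ({n : ℕ | n ≤ X ∧ n ∉ S}.ncard : ℝ) ≤ X / (Real.log X) ^ A) ∧
        (∀ η : ℝ, 0 < η → ∃ X₀ : ℕ, ∀ X : ℕ, X₀ ≤ X →
          ({p : ℕ | p ≤ X ∧ p.Prime ∧ p ∉ S}.ncard : ℝ) ≤ η * {p : ℕ | p ≤ X ∧ p.Prime}.ncard) ∧
        ∀ (r : ℕ) (α : Fin r → ℝ), (∀ j, IsAlgebraic ℚ (α j)) →
          LinearIndependent ℚ (Matrix.vecCons (1 : ℝ) α) → ∀ m M : ℕ, 1 ≤ m → 1 ≤ M →
          ∀ ε c : ℝ, 0 < ε → 0 < c → ∃ b₀ : ℕ, ∀ b ∈ S, b₀ ≤ b → ∀ K : ℕ, (Real.log b) ^ c ≤ K →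
            (K : ℝ) ≤ (Real.log b) ^ δ → Blocks α m M ε b K ∧ Boxes α ε b K) := by
  obtain ⟨δ1, hδ1, h1⟩ := Pool.Agent.J6H36.RB.univ_main
  obtain ⟨δ2, hδ2, S, hS, h2⟩ := Pool.Agent.J6H36.RB.univ_few
  obtain ⟨n0, hn0⟩ := Pool.Agent.J6H36.RB.exists_L 1
  refine ⟨min δ1 δ2, lt_min hδ1 hδ2, ?_, S, hS, Pool.Agent.J6H36.RB.densl_primes hS, ?_⟩
  · intro κ hκ
    obtain ⟨S, hS, h3⟩ := h1 κ hκ
    refine ⟨S, hS, fun r α halg hlin m M hm hM ε hε => ?_⟩
    obtain ⟨b0, hb0⟩ := h3 r α halg hlin m M hm hM ε hε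
    refine ⟨max b0 n0, fun b hb hbb K hK1 hK2 => ?_⟩
    have hlog := hn0 b ((le_max_right _ _).trans hbb)
    exact hb0 b hb ((le_max_left _ _).trans hbb) K hK1
      (hK2.trans (Real.rpow_le_rpow_of_exponent_le hlog (min_le_left _ _)))
  · intro r α halg hlin m M hm hM ε c hε hc
    obtain ⟨b0, hb0⟩ := h2 r α halg hlin m M hm hM ε c hε hc
    refine ⟨max b0 n0, fun b hb hbb K hK1 hK2 => ?_⟩
    have hlog := hn0 b ((le_max_right _ _).trans hbb)
    exact hb0 b hb ((le_max_left _ _).trans hbb) K hK1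
      (hK2.trans (Real.rpow_le_rpow_of_exponent_le hlog (min_le_right _ _)))

end Pool.Agent.Results.MP_5b6025_nt.UniversalBases
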