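import Pool.Agent.J6H93.Fam.Ac3

/-!
# Small circuits of bounded depth cannot tell the first `(log p) ^ (3 / 2 - ε)` digits of the square
roots of primes from random digits, and the same for all algebraic functions at integers and primes

Let `f` be a real algebraic function near `+∞` (a continuous branch of a solution of `F(t, X) = 0`, where
`F ≠ 0` is a polynomial in two variables with integral coefficients), which is not at a bounded distance
from a polynomial; for instance `f(t) = √t`, or any branch of the solutions of `P(X) = t`, `deg P ≥ 2`.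
For every `δ < 1 / 2`, every depth `D` and every base `b` there is `c > 0` such that for all large `M` a
circuit of AND and OR gates of depth at most `D` with at most `exp((log M) ^ c)` gates which reads the
first `(log M) ^ (1 + δ)` digits in base `b` of `α + θ f(p)`, where `p` is a random PRIME `p ≤ M` and `α`,
`θ` are any fixed real numbers with `exp(-(log M) ^ c) ≤ |θ| ≤ exp((log M) ^ (1 + δ))`, accepts with the
probability with which it accepts random digits, up to `exp(-(log M) ^ c)`. The same holds for random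
integers `1 ≤ p ≤ M`.

The digits are read beyond the place `log M`, that is, a member of the family is chosen with `log M`
random bits, but `(log M) ^ (1 + δ)` digits of it look like random digits.

Proof. By Puiseux' theorem `f` has an expansion in descending powers of `t`, which is valid in a half
plane, and has a leading term `c t ^ κ` (up to terms with integral exponents) with `κ > 0` not an integer.
By Vaughan's identity the sums of `Λ(n) exp(2π i λ f(n))` are reduced to sums over `l` of
`exp(2π i λ f(m l))` and of `exp(2π i λ (f(m l) - f(m' l)))`, which are estimated by bilinear shifts and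
Vinogradov's mean value theorem, with explicit dependence on the degree: the sums over primes are
`O(M exp(-(log M) ^ β))` for all `exp(-(log M) ^ β) ≤ |λ| ≤ exp((log M) ^ (1 + δ'))`, `β < 1 - 2 δ'`. So
every conjunction of `(log M) ^ γ` conditions on single digits has the expected probability, and the
theorem of Braverman on circuits of bounded depth, for almost independent digits (starting files
`Y603/BR`), does the rest.
-/

set_option autoImplicit false

namespace Pool.Agent.Results.MP_5b6025_nt.ValuesAgainstCircuits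

open Polynomial MeasureTheory Filter
open Pool.Agent.Y603.BR (digit Circuit)

/-- `f` is a real algebraic function near `+∞`: it is continuous on `(t₀, ∞)` and satisfies there
`F(t, f(t)) = 0` for a polynomial `F ≠ 0` in two variables with integral coefficients -/
def Algebraic (f : ℝ → ℝ) : Prop :=
  ∃ (t₀ : ℝ) (F : Polynomial (Polynomial ℤ)), F ≠ 0 ∧ ContinuousOn f (Set.Ioi t₀) ∧
    ∀ t : ℝ, t₀ < t → (F.map (aeval t : ℤ[X] →ₐ[ℤ] ℝ).toRingHom).eval (f t) = 0

/-- `f - P` is not bounded near `+∞`, for all real polynomials `P` -/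
def FarFromPolynomials (f : ℝ → ℝ) : Prop :=
  ∀ (P : ℝ[X]) (C : ℝ), ¬ ∀ᶠ t : ℝ in atTop, |f t - P.eval t| ≤ C

/-- Let `f` be a real algebraic function near `+∞` whose difference to every real polynomial is
unbounded, `b ≥ 2`, `0 < δ < 1 / 2`, and let `S` be the set of the primes up to `M`, or the set of the
integers between `1` and `M`. For all circuits of depth at most `D` with at most `exp((log M) ^ c)` gates
which read the digits of the first `n ≤ (log M) ^ (1 + δ)` places in base `b`, the proportion of the
`m ∈ S` for which the circuit accepts `α + θ f(m)` is the probability with which it accepts the digits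
of a random real number, up to `exp(-(log M) ^ c)`. -/
theorem result (f : ℝ → ℝ) (hf : Algebraic f) (hfar : FarFromPolynomials f) (b : ℕ) (hb : 2 ≤ b)
    (D : ℕ) (δ : ℝ) (hδ : 0 < δ) (hδ2 : δ < 1 / 2) : ∃ c : ℝ, 0 < c ∧ ∃ M₀ : ℕ, ∀ M : ℕ, M₀ ≤ M →
    ∀ S : Set ℕ, (S = {p | p.Prime ∧ p ≤ M} ∨ S = {m | 1 ≤ m ∧ m ≤ M}) →
    ∀ α θ : ℝ, Real.exp (-(Real.log M) ^ c) ≤ |θ| → |θ| ≤ Real.exp ((Real.log M) ^ (1 + δ)) →
    ∀ n : ℕ, (n : ℝ) ≤ (Real.log M) ^ (1 + δ) →
    ∀ C : Circuit (Set.Icc 1 n), (∀ v, C.depth v ≤ D) →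
    (Nat.card C.Node : ℝ) ≤ Real.exp ((Real.log M) ^ c) → ∀ v : C.Node,
    |(({m : ℕ | m ∈ S ∧ C.val v (digit b (α + θ * f m)) = true}.ncard : ℕ) : ℝ) / (S.ncard : ℝ) -
        volume.real {t | t ∈ Set.Ico (0 : ℝ) 1 ∧ C.val v (digit b t) = true}| ≤
      Real.exp (-(Real.log M) ^ c) := by
  classical
  have hf' : Pool.Agent.J6H93.Fam.AlgFun f := by
    obtain ⟨t₀, F, hF, hcont, heq⟩ := hf
    refine ⟨t₀, F.natDegree, F.coeff, hcont,
      ⟨F.natDegree, le_rfl, leadingCoeff_ne_zero.2 hF⟩, fun t ht => ?_⟩
    have h1 := heq t ht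
    rw [eval_map, eval₂_eq_sum_range] at h1
    exact h1
  obtain ⟨c, hc, M₀, hM₀⟩ := Pool.Agent.J6H93.Fam.fools_both hf' hfar hb D hδ (by linarith)
  refine ⟨c, hc, M₀, fun M hM S hS α θ h1 h2 n hn C hCd hCs v => ?_⟩
  obtain ⟨hI, hP⟩ := hM₀ M hM
  have key : ∀ Ω : Finset ℕ, (∀ m, m ∈ Ω ↔ m ∈ S) → Pool.Agent.J6H93.Fam.Fools b D δ c f M Ω →
      |(({m : ℕ | m ∈ S ∧ C.val v (digit b (α + θ * f m)) = true}.ncard : ℕ) : ℝ) /
          (S.ncard : ℝ) - volume.real {t | t ∈ Set.Ico (0 : ℝ) 1 ∧ C.val v (digit b t) = true}| ≤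
        Real.exp (-(Real.log M) ^ c) := by
    intro Ω hΩ hF
    have e1 : S = (Ω : Set ℕ) := by
      ext m
      rw [Finset.mem_coe, hΩ]
    have e2 : {m : ℕ | m ∈ S ∧ C.val v (digit b (α + θ * f m)) = true} =
        ((Ω.filter fun m : ℕ => C.val v (digit b (α + θ * f m)) = true : Finset ℕ) : Set ℕ) := by
      ext m
      rw [Finset.mem_coe, Finset.mem_filter, hΩ]
      rfl
    rw [e2, Set.ncard_coe_finset, e1, Set.ncard_coe_finset]
    exact hF α θ h1 h2 n hn C hCd hCs v
  rcases hS with rfl | rfl
  · refine key _ (fun m => ?_) hP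
    rw [Finset.mem_filter, Finset.mem_Ioc]
    constructor
    · rintro ⟨⟨k1, k2⟩, k3⟩
      exact ⟨k3, k2⟩
    · rintro ⟨k1, k2⟩
      exact ⟨⟨k1.pos, k2⟩, k1⟩
  · refine key _ (fun m => ?_) hI
    rw [Finset.mem_Ioc]
    exact Iff.rfl

end Pool.Agent.Results.MP_5b6025_nt.ValuesAgainstCircuits
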