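import Pool.Agent.J6H93.Fam.Jb2

/-!
# The values of algebraic functions at the integers are random in all bases jointly, up to
`(log n) ^ (3 / 2 - ε)` digits

Let `f` be a real algebraic function near `+∞` (a continuous branch of a solution of `F(t, X) = 0`, where
`F ≠ 0` is a polynomial in two variables with integral coefficients), which is not at a bounded distance
from a polynomial; for instance `f(t) = √t`, or any branch of the solutions of `P(X) = t`, `deg P ≥ 2`,
or the roots of a generic family `F(t, X) = 0` which tend to infinity faster than a fractional power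
`t ^ (p / q)`, `p / q > 0`. Let `δ < 1 / 2`. For almost all integers `n ≤ M` the algebraic number
`y = f(n)`, and in fact all the numbers `y = (a + h f(n)) / q` with integers `h ≠ 0`, `q ≥ 1` and `a`,
`|h|, q ≤ (log M) ^ A`, look up to the digit `N = (log M) ^ (1 + δ)` like random real numbers in all
bases at most `B` jointly: for all intervals `I_2, …, I_B ⊆ [0, 1)` and all places `s_2, …, s_B ≤ N` the
number of `1 ≤ i ≤ k` for which the fractional parts of `y b ^ (s_b + i)` are in `I_b` for all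
`2 ≤ b ≤ B` is `k |I_2| ⋯ |I_B| + O(N ^ ε √k)`, for all `k ≤ N`. In particular the expansions of `y` in
the different bases are independent, and, since `b, b ^ 2, b ^ 3, …` are among the bases, the digits in
base `b` at the places `s + i`, `2 (s' + i)`, `3 (s'' + i)`, … are jointly independent. The number of
digits is much larger than `log M`, that is, than the number of digits which are needed to describe
`n`, and than the logarithm of the height of the number `y`.

Proof. By Puiseux' theorem `f` has an expansion in descending powers of `t`, which is valid in a half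
plane, and has a term `c t ^ κ` with `κ > 0` not an integer. The exponential sums over `θ f(n)`,
`n ≤ M`, are `O(M exp(-(log M) ^ β))` for all `exp(-(log M) ^ β) ≤ |θ| ≤ exp((log M) ^ (1 + δ'))`, by
bilinear shifts and Vinogradov's mean value theorem, with explicit dependence on the
degree. The frequencies are `θ = (h / q) ∑_t ± a_(i_t)` with `a_i = ∑_b h_b b ^ (s_b + i)`; the sums
`∑_t ± a_(i_t)` over `2 σ` indices vanish (essentially) only diagonally, by the argument of J6H30.PV, so
that high moments of the Erdős-Turán-Koksma sums are as for random numbers.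
-/

set_option autoImplicit false

namespace Pool.Agent.Results.MP_5b6025_nt.ValuesInAllBasesJointly

open Finset Filter Polynomial

/-- For all places `s b ≤ N`, all `n ≤ N` and all intervals `[α b, β b) ⊆ [0, 1)`, `2 ≤ b ≤ B`: the
number of `1 ≤ i ≤ n` such that for all bases `2 ≤ b ≤ B` the fractional part of `z b ^ (s b + i)` lies in
`[α b, β b)` differs from `n ∏ (β b - α b)` by at most `E √n`. -/
def JointlyRandom (B N : ℕ) (E z : ℝ) : Prop :=
  ∀ s : ℕ → ℕ, (∀ b, s b ≤ N) → ∀ n : ℕ, n ≤ N → ∀ α β : ℕ → ℝ,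
    (∀ b, 0 ≤ α b ∧ α b < β b ∧ β b ≤ 1) →
    |(({i : ℕ | 1 ≤ i ∧ i ≤ n ∧ ∀ b : ℕ, 2 ≤ b → b ≤ B →
      α b ≤ Int.fract (z * (b : ℝ) ^ (s b + i)) ∧
      Int.fract (z * (b : ℝ) ^ (s b + i)) < β b}.ncard : ℕ) : ℝ) - n * ∏ b ∈ Icc 2 B, (β b - α b)| ≤
        E * Real.sqrt n

/-- `f` is a real algebraic function near `+∞`: it is continuous on `(t₀, ∞)` and satisfies there
`F(t, f(t)) = 0` for a polynomial `F ≠ 0` in two variables with integral coefficients -/
def Algebraic (f : ℝ → ℝ) : Prop :=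
  ∃ (t₀ : ℝ) (F : Polynomial (Polynomial ℤ)), F ≠ 0 ∧ ContinuousOn f (Set.Ioi t₀) ∧
    ∀ t : ℝ, t₀ < t → (F.map (aeval t : ℤ[X] →ₐ[ℤ] ℝ).toRingHom).eval (f t) = 0

/-- `f - P` is not bounded near `+∞`, for all real polynomials `P` -/
def FarFromPolynomials (f : ℝ → ℝ) : Prop :=
  ∀ (P : ℝ[X]) (C : ℝ), ¬ ∀ᶠ t : ℝ in atTop, |f t - P.eval t| ≤ C

/-- Let `f` be a real algebraic function near `+∞` whose difference to every real polynomial is
unbounded, let `0 < δ < 1 / 2`, `ε > 0`, `A` and `B` be given. For all large `M`, for all integers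
`0 < n ≤ M` with at most `M / (log M) ^ A` exceptions, all the numbers `(a + h f(n)) / q` with integers
`a`, `h ≠ 0` and `q ≥ 1`, `|h|, q ≤ (log M) ^ A`, are `JointlyRandom B N (N ^ ε)` for
`N = ⌊(log M) ^ (1 + δ)⌋`. -/
theorem result (f : ℝ → ℝ) (hf : Algebraic f) (hfar : FarFromPolynomials f) (δ ε : ℝ) (hδ : 0 < δ)
    (hδ2 : δ < 1 / 2) (hε : 0 < ε) (A B : ℕ) : ∃ M₀ : ℕ, ∀ M : ℕ, M₀ ≤ M →
    (({n : ℕ | 0 < n ∧ n ≤ M ∧ ¬ ∀ (a h : ℤ) (q : ℕ), h ≠ 0 → |(h : ℝ)| ≤ (Real.log M) ^ A →
      1 ≤ q → (q : ℝ) ≤ (Real.log M) ^ A →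
      JointlyRandom B ⌊(Real.log M) ^ (1 + δ)⌋₊ ((⌊(Real.log M) ^ (1 + δ)⌋₊ : ℝ) ^ ε)
        ((a + h * f n) / q)}.ncard : ℕ) : ℝ) ≤ M / (Real.log M) ^ A := by
  classical
  obtain ⟨bb, hbb⟩ : ∃ bb : Fin (B - 1) → ℕ, bb = fun l : Fin (B - 1) => (l : ℕ) + 2 := ⟨_, rfl⟩
  have hf' : Pool.Agent.J6H93.Fam.AlgFun f := by
    obtain ⟨t₀, F, hF, hcont, heq⟩ := hf
    refine ⟨t₀, F.natDegree, F.coeff, hcont,
      ⟨F.natDegree, le_rfl, leadingCoeff_ne_zero.2 hF⟩, fun t ht => ?_⟩
    have h1 := heq t ht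
    rw [eval_map, eval₂_eq_sum_range] at h1
    exact h1
  have hdef : ∀ (N : ℕ) (E z : ℝ), Pool.Agent.J6H30.PV.GoodJ bb N E z → JointlyRandom B N E z := by
    intro N E z h s hs n hn α β hab
    have h1 := h (fun l => s (bb l)) (fun l => hs _) n hn (fun l => α (bb l)) (fun l => β (bb l))
      (fun l => (hab _).1) (fun l => (hab _).2.1) (fun l => (hab _).2.2)
    have e1 : {i : ℕ | 1 ≤ i ∧ i ≤ n ∧ ∀ b : ℕ, 2 ≤ b → b ≤ B →
        α b ≤ Int.fract (z * (b : ℝ) ^ (s b + i)) ∧ Int.fract (z * (b : ℝ) ^ (s b + i)) < β b} =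
        (((Icc 1 n).filter (fun i : ℕ => ∀ l, α (bb l) ≤
          Int.fract (z * ((bb l : ℕ) : ℝ) ^ (s (bb l) + i)) ∧
          Int.fract (z * ((bb l : ℕ) : ℝ) ^ (s (bb l) + i)) < β (bb l)) : Finset ℕ) : Set ℕ) := by
      ext i
      rw [mem_coe, mem_filter, mem_Icc]
      constructor
      · rintro ⟨h2, h3, h4⟩
        refine ⟨⟨h2, h3⟩, fun l => ?_⟩
        have hl := l.2
        exact h4 (bb l) (by rw [hbb]; simp) (by rw [hbb]; simp only; omega)
      · rintro ⟨⟨h2, h3⟩, h4⟩
        refine ⟨h2, h3, fun b hb hbB => ?_⟩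
        have h5 := h4 ⟨b - 2, by omega⟩
        have h6 : bb ⟨b - 2, by omega⟩ = b := by
          rw [hbb]
          simp only
          omega
        rw [h6] at h5
        exact h5
    have e2 : ∏ b ∈ Icc 2 B, (β b - α b) = ∏ l, (β (bb l) - α (bb l)) := by
      symm
      apply prod_bij (fun l _ => bb l)
      · intro l _
        have hl := l.2
        rw [mem_Icc, hbb]
        simp only
        omega
      · intro l _ l' _ h
        rw [hbb] at h
        simp only [add_left_inj] at h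
        exact Fin.ext h
      · intro b hb
        rw [mem_Icc] at hb
        refine ⟨⟨b - 2, by omega⟩, mem_univ _, ?_⟩
        rw [hbb]
        simp only
        omega
      · intro l _
        rfl
    rw [e1, Set.ncard_coe_finset, e2, mul_comm (n : ℝ)]
    exact h1
  have hshift : ∀ (N : ℕ) (E z : ℝ) (k : ℤ), JointlyRandom B N E z → JointlyRandom B N E (z + k) := by
    intro N E z k h s hs n hn α β hab
    have h1 := h s hs n hn α β hab
    have e1 : ∀ (b i : ℕ), Int.fract ((z + k) * (b : ℝ) ^ (s b + i)) =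
        Int.fract (z * (b : ℝ) ^ (s b + i)) := by
      intro b i
      have h2 : (z + k) * (b : ℝ) ^ (s b + i) = z * (b : ℝ) ^ (s b + i) +
          ((k * (b : ℤ) ^ (s b + i) : ℤ) : ℝ) := by
        push_cast
        ring
      rw [h2, Int.fract_add_intCast]
    simp only [e1]
    exact h1
  obtain ⟨M₀, hM₀⟩ := Pool.Agent.J6H93.Fam.joint_f hf' hfar bb
    (fun l => by rw [hbb]; simp) (fun l l' hll => by
      rw [hbb] at hll
      simp only [add_left_inj] at hll
      exact Fin.ext hll) δ ε hδ (by linarith) hε A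
  refine ⟨M₀, fun M hM => le_trans ?_ (hM₀ M hM)⟩
  rw [← Set.ncard_coe_finset]
  refine Nat.cast_le.2 (Set.ncard_le_ncard ?_ (Finset.finite_toSet _))
  rintro n ⟨hn1, hn2, hn3⟩
  rw [Finset.mem_coe, Finset.mem_filter, Finset.mem_Ioc]
  refine ⟨⟨hn1, hn2⟩, fun hcon => hn3 ?_⟩
  intro a h q hh hh1 hq hq1
  have hpos : (0 : ℤ) < (q : ℤ) := by exact_mod_cast hq
  have hq0 : (q : ℝ) ≠ 0 := by exact_mod_cast (by omega : q ≠ 0)
  have h1 := Int.emod_nonneg a hpos.ne'
  have h2 := Int.emod_lt_of_pos a hpos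
  have h3 := hcon h (a % (q : ℤ)).toNat q hh hh1 hq hq1 (by omega)
  have h4 : ((a : ℝ) + h * f n) / q = (((a % (q : ℤ)).toNat : ℝ) + h * f n) / q +
      ((a / (q : ℤ) : ℤ) : ℝ) := by
    have h5 : ((a % (q : ℤ)).toNat : ℝ) = ((a % (q : ℤ) : ℤ) : ℝ) := by
      have : (((a % (q : ℤ)).toNat : ℤ)) = a % (q : ℤ) := Int.toNat_of_nonneg h1
      exact_mod_cast this
    have h8 : (a : ℝ) = ((a % (q : ℤ) : ℤ) : ℝ) + (q : ℝ) * ((a / (q : ℤ) : ℤ) : ℝ) := by
      have := Int.emod_add_mul_ediv a (q : ℤ)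
      exact_mod_cast this.symm
    rw [h5]
    nth_rw 1 [h8]
    field_simp
    ring
  rw [h4]
  exact hshift _ _ _ _ (hdef _ _ _ h3)

end Pool.Agent.Results.MP_5b6025_nt.ValuesInAllBasesJointly
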